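import Pool.Agent.K7.H12.RC.Dim
import Pool.Agent.Results.MP_2d259b_nt.RandomResidues

/-!
# An explicit bound for the integer points of all plane curves with `4 d - 1` random coefficients

Let `d ≥ 4` and let `S` be a set of `k` monomials `x ^ i y ^ j`. For `G` in `ℝ ^ S` outside a set of
Hausdorff dimension at most `(4 d - 2 + τ) / (1 - θ)` (a null set, if `4 d - 2 + τ < (1 - θ) k`), for
every `c` and all but finitely many `n`, ALL polynomials `F ∈ ℤ[x, y]` of degree `d`, irreducible over
`ℚ` and with a squarefree leading form, whose coefficients at the monomials of `S` differ from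
`v n * G + P n` by at most `c (v n) ^ θ`, and whose other coefficients are ARBITRARY integers of absolute
value at most `c (v n)`, have no integer zero `(x, y)` with `max (|x|, |y|) > ((d + 1) h (F)) ^ C`, where
`C` is explicit. Here `v` is any sequence of positive numbers with exponent of convergence at most `τ` and
`P` is any sequence of vectors. So it is enough that `4 d - 1` of the coefficients are random; the number
of all coefficients is `(d + 1) (d + 2) / 2`.

The same holds for the neighbourhoods of radius `c r ^ θ` of all the multiples `r G`, `r` real and large,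
for `G` outside a set of dimension at most `1 + (4 d - 2) / (1 - θ)`.

The count of the exceptional curves is from the starting file `FewExceptionalCurves`, the theorem on
windows from `Pool.Agent.K7.H12.RC.Dim`.
-/

set_option autoImplicit false

namespace Pool.Agent.Results.MP_2d259b_nt.RandomCoefficients

open MeasureTheory

/-- the sum `h(F)` of the absolute values of the coefficients -/
def len (F : MvPolynomial (Fin 2) ℤ) : ℕ := ∑ m ∈ F.support, (F.coeff m).natAbs

/-- `F` has degree `d`, is irreducible over `ℚ` and its leading form is squarefree -/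
def Regular (d : ℕ) (F : MvPolynomial (Fin 2) ℤ) : Prop :=
  F.totalDegree = d ∧ Irreducible (MvPolynomial.map (Int.castRingHom ℚ) F) ∧
    Squarefree (MvPolynomial.map (Int.castRingHom ℚ) (MvPolynomial.homogeneousComponent d F))

/-- all integer zeros of `F` satisfy the bound `((d + 1) h(F)) ^ (10 ^ 11 * 36 ^ d * (d + 1) ^ 13)` -/
def Bounded (d : ℕ) (F : MvPolynomial (Fin 2) ℤ) : Prop :=
  ∀ x y : ℤ, MvPolynomial.eval ![x, y] F = 0 →
    max x.natAbs y.natAbs ≤ ((d + 1) * len F) ^ (10 ^ 11 * 36 ^ d * (d + 1) ^ 13)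

/-- the coefficients of `F` at the monomials of `S` differ from those of `Q` by at most `R` -/
def Near (S : Finset (Fin 2 →₀ ℕ)) (F : MvPolynomial (Fin 2) ℤ) (Q : S → ℝ) (R : ℝ) : Prop :=
  ∀ m : S, |((F.coeff (m : Fin 2 →₀ ℕ) : ℤ) : ℝ) - Q m| ≤ R

/-- all coefficients of `F` have absolute value at most `B` -/
def Size (F : MvPolynomial (Fin 2) ℤ) (B : ℝ) : Prop :=
  ∀ m : Fin 2 →₀ ℕ, |((F.coeff m : ℤ) : ℝ)| ≤ B

lemma ht_le {F : MvPolynomial (Fin 2) ℤ} {B : ℝ} (hB : 0 ≤ B) (h : Size F B) :
    (RandomResidues.ht F : ℝ) ≤ B := by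
  unfold RandomResidues.ht
  rcases F.support.eq_empty_or_nonempty with he | hne
  · rw [he]
    simpa using hB
  · obtain ⟨m, hm, hm'⟩ := Finset.exists_mem_eq_sup F.support hne fun m => (F.coeff m).natAbs
    rw [hm']
    rw [Nat.cast_natAbs, Int.cast_abs]
    exact h m

lemma bounded_of {d : ℕ} {F : MvPolynomial (Fin 2) ℤ} (h : ¬ RandomResidues.FarZero d F) :
    Bounded d F := by
  intro x y hxy
  by_contra hcon
  exact h ⟨x, y, hxy, not_le.1 hcon⟩

/-- **Theorem.** Let `d ≥ 4` and let `S` be a finite set of monomials.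

(1) Let `v n > 0` be numbers with exponent of convergence at most `τ`, let `P n` be any vectors in `ℝ ^ S`
and `θ < 1`. There is a set `E` in `ℝ ^ S` of Hausdorff dimension at most `(4 d - 2 + τ) / (1 - θ)`, which
is a null set if `4 d - 2 + τ < (1 - θ) |S|`, such that for each `G ∉ E` and each `c`, for all but finitely
many `n`, every regular `F ∈ ℤ[x, y]` of degree `d` with coefficients at most `c * v n`, whose coefficients
at the monomials of `S` differ from `v n * G + P n` by at most `c * (v n) ^ θ`, is bounded.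

(2) Let `θ < 1`. There is a set `E` of dimension at most `1 + (4 d - 2) / (1 - θ)`, which is a null set if
`4 d - 2 < (1 - θ) (|S| - 1)`, such that for each `G ∉ E` and each `c`, for all large real `r`, every
regular `F ∈ ℤ[x, y]` of degree `d` with coefficients at most `c * r`, whose coefficients at the monomials
of `S` differ from `r * G` by at most `c * r ^ θ`, is bounded. -/
theorem result (d : ℕ) (hd : 4 ≤ d) (S : Finset (Fin 2 →₀ ℕ)) :
    (∀ (v : ℕ → ℝ) (P : ℕ → S → ℝ) (τ θ : ℝ), (∀ n, 0 < v n) → 0 ≤ τ →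
      (∀ t : ℝ, τ < t → Summable fun n => v n ^ (-t)) → θ < 1 →
      ∃ E : Set (S → ℝ), dimH E ≤ ENNReal.ofReal ((4 * d - 2 + τ) / (1 - θ)) ∧
        (4 * d - 2 + τ < (1 - θ) * S.card → volume E = 0) ∧
        ∀ G ∉ E, ∀ c : ℝ, ∃ n₀ : ℕ, ∀ n : ℕ, n₀ ≤ n → ∀ F : MvPolynomial (Fin 2) ℤ, Regular d F →
          Size F (c * v n) → Near S F (fun m => v n * G m + P n m) (c * v n ^ θ) → Bounded d F) ∧
    (∀ θ : ℝ, θ < 1 →
      ∃ E : Set (S → ℝ), dimH E ≤ ENNReal.ofReal (1 + (4 * d - 2) / (1 - θ)) ∧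
        (4 * d - 2 < (1 - θ) * (S.card - 1) → volume E = 0) ∧
        ∀ G ∉ E, ∀ c : ℝ, ∃ r₀ : ℝ, 1 ≤ r₀ ∧ ∀ r : ℝ, r₀ ≤ r → ∀ F : MvPolynomial (Fin 2) ℤ, Regular d F →
          Size F (c * r) → Near S F (fun m => r * G m) (c * r ^ θ) → Bounded d F) := by
  have hcast : ((4 * d - 2 : ℕ) : ℝ) = 4 * d - 2 := by
    rw [Nat.cast_sub (by omega)]
    push_cast
    ring
  have hs : (0 : ℝ) ≤ 4 * d - 2 := by rw [← hcast]; exact Nat.cast_nonneg _
  have hcount := RandomResidues.count_bad hd
  rw [hcast] at hcount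
  have hcard : ((Fintype.card S : ℕ) : ℝ) = S.card := by rw [Fintype.card_coe]
  have hnn : ∀ {F : MvPolynomial (Fin 2) ℤ} {B : ℝ}, Size F B → 0 ≤ B := fun {F B} h =>
    (abs_nonneg _).trans (h 0)
  constructor
  · intro v P τ θ hv0 hτ hv hθ
    have hθ' : 0 < 1 - θ := by linarith
    obtain ⟨E, hE, hE'⟩ := K7.H12.RC.windows (S := S)
      {F : MvPolynomial (Fin 2) ℤ | RandomResidues.Regular d F ∧ RandomResidues.FarZero d F}
      (fun F => (RandomResidues.ht F : ℝ))
      (fun F m => ((F.coeff (m : Fin 2 →₀ ℕ) : ℤ) : ℝ)) P hs hτ hθ hv0 hv hcount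
    refine ⟨E, hE, fun h => ?_, fun G hG c => ?_⟩
    · refine K7.H12.RC.null_of_dim hE (by positivity) ?_
      rw [hcard, div_lt_iff₀ hθ']
      linarith
    · obtain ⟨n₀, hn₀⟩ := hE' G hG c
      refine ⟨n₀, fun n hn F hF hFs hFn => bounded_of fun hfar => ?_⟩
      exact hn₀ n hn F ⟨hF, hfar⟩ (ht_le (hnn hFs) hFs) hFn
  · intro θ hθ
    have hθ' : 0 < 1 - θ := by linarith
    obtain ⟨E, hE, hE'⟩ := K7.H12.RC.rays (S := S)
      {F : MvPolynomial (Fin 2) ℤ | RandomResidues.Regular d F ∧ RandomResidues.FarZero d F}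
      (fun F => (RandomResidues.ht F : ℝ))
      (fun F m => ((F.coeff (m : Fin 2 →₀ ℕ) : ℤ) : ℝ)) hs hθ hcount
    refine ⟨E, hE, fun h => ?_, fun G hG c => ?_⟩
    · refine K7.H12.RC.null_of_dim hE (by positivity) ?_
      rw [hcard]
      have : (4 * (d : ℝ) - 2) / (1 - θ) < S.card - 1 := by
        rw [div_lt_iff₀ hθ']
        linarith
      linarith
    · obtain ⟨r₀, hr1, hr₀⟩ := hE' G hG c
      refine ⟨r₀, hr1, fun r hr F hF hFs hFn => bounded_of fun hfar => ?_⟩
      exact hr₀ r hr F ⟨hF, hfar⟩ (ht_le (hnn hFs) hFs) hFn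

end Pool.Agent.Results.MP_2d259b_nt.RandomCoefficients
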