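import Pool.Agent.K7.H55.TP.Win
import Pool.Agent.K7.H55.TP.Round
import Pool.Agent.Results.MP_2d259b_nt.AlmostAllThroughPoints

/-!
# The integer points of the integer approximations of almost all real curves through given points

Let `S` be a finite set of integer points of the plane and `d ≥ 2 |S| + 4`. We consider the real polynomials `f` of degree
at most `d` which vanish on `S`; they form a space `V` of dimension `D = (d + 1) (d + 2) / 2 - |S|`. For all `f` in `V`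
outside a set of Hausdorff dimension smaller than `D` all but finitely many of the integer polynomials `F` which vanish on
`S` and are close to one of the multiples `v_n f` have NO integer zero outside `S`, for given numbers `v_n`, for instance
`v_n = 10 ^ n`. The same holds for the integer polynomials whose coefficient vector has nearly the direction of `f`.
-/

set_option autoImplicit false

namespace Pool.Agent.Results.MP_2d259b_nt.RealCurvesThroughPoints

/-- the pairs `(i, j)` with `i + j ≤ d`, the exponents of the monomials of degree at most `d` -/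
abbrev Mon (d : ℕ) : Type := ↥(Pool.Agent.H322R2.Ix d)

/-- the coefficient of `x ^ i y ^ j` in `F`, `p = (i, j)` -/
noncomputable def co {d : ℕ} (F : MvPolynomial (Fin 2) ℤ) (p : Mon d) : ℝ :=
  ((F.coeff (Finsupp.single 0 p.1.1 + Finsupp.single 1 p.1.2) : ℤ) : ℝ)

/-- the coefficient vectors of the real polynomials of degree at most `d` which vanish on `S` -/
def V (d : ℕ) (S : Finset (ℤ × ℤ)) : Set (Mon d → ℝ) :=
  {f | ∀ q ∈ S, ∑ p : Mon d, f p * ((q.1 : ℝ) ^ p.1.1 * (q.2 : ℝ) ^ p.1.2) = 0}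

/-- the integer polynomials of degree at most `d` which vanish on `S` -/
def Lat (d : ℕ) (S : Finset (ℤ × ℤ)) : Set (MvPolynomial (Fin 2) ℤ) :=
  {F | F.totalDegree ≤ d ∧ ∀ q ∈ S, MvPolynomial.eval ![q.1, q.2] F = 0}

/-- the largest absolute value of the coefficients -/
def ht (F : MvPolynomial (Fin 2) ℤ) : ℕ := F.support.sup fun m => (F.coeff m).natAbs

/-- the exponent `(d + 1) (d + 2) / 2 - |S| - 1 / (10 ^ 4 d)` -/
noncomputable def expo (d : ℕ) (S : Finset (ℤ × ℤ)) : ℝ :=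
  ((d : ℝ) + 1) * (d + 2) / 2 - S.card - 1 / (10 ^ 4 * (d : ℝ))

open Pool.Agent.K7.H55.TP

theorem card_real (d : ℕ) : (((Pool.Agent.H322R2.Ix d).card : ℕ) : ℝ) = ((d : ℝ) + 1) * (d + 2) / 2 := by
  rw [Pool.Agent.H322R2.card_Ix]
  have h : 2 ∣ (d + 1) * (d + 2) := by
    have := Nat.even_mul_succ_self (d + 1)
    exact this.two_dvd
  rw [Nat.cast_div h (by norm_num)]
  push_cast
  ring

theorem few (S : Finset (ℤ × ℤ)) (d : ℕ) (hd : 2 * S.card + 4 ≤ d) :
    Few d (fun F => (∀ q ∈ S, MvPolynomial.eval ![q.1, q.2] F = 0) ∧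
      ∃ x y : ℤ, (x, y) ∉ S ∧ MvPolynomial.eval ![x, y] F = 0) (expo d S) := by
  classical
  intro ε hε
  obtain ⟨B₀, hB₀⟩ : ∃ B₀ : ℕ, ∀ p ∈ S, |p.1| ≤ (B₀ : ℤ) ∧ |p.2| ≤ (B₀ : ℤ) := by
    refine ⟨∑ p ∈ S, (p.1.natAbs + p.2.natAbs), fun p hp => ?_⟩
    have h1 : p.1.natAbs + p.2.natAbs ≤ ∑ p ∈ S, (p.1.natAbs + p.2.natAbs) :=
      Finset.single_le_sum (f := fun p : ℤ × ℤ => p.1.natAbs + p.2.natAbs) (fun _ _ => Nat.zero_le _) hp
    constructor
    · rw [Int.abs_eq_natAbs]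
      exact_mod_cast (Nat.le_add_right _ _).trans h1
    · rw [Int.abs_eq_natAbs]
      exact_mod_cast (Nat.le_add_left _ _).trans h1
  set K := AlmostAllThroughPoints.K d B₀ S.card with hK
  have hK0 : 0 ≤ K := by
    rw [hK]
    unfold AlmostAllThroughPoints.K
    positivity
  set n : ℕ := (Pool.Agent.H322R2.Ix d).card - S.card with hn
  have hcard : S.card ≤ (Pool.Agent.H322R2.Ix d).card := by
    have := finrank_ker (d := d) ℚ S (by omega)
    omega
  set δ : ℝ := 1 / (10 ^ 4 * (d : ℝ)) with hδ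
  have hd0 : (4 : ℝ) ≤ d := by exact_mod_cast (show 4 ≤ d by omega)
  have hδ0 : 0 ≤ δ := by positivity
  have hδ1 : δ ≤ 1 := by
    rw [hδ, div_le_one (by positivity)]
    linarith
  refine ⟨K * 2 * 3 ^ n, fun B hB => ?_⟩
  have hB0 : (0 : ℝ) < B := by linarith
  obtain ⟨h1, -, h3⟩ := AlmostAllThroughPoints.result S B₀ d hd hB₀ ⌊B⌋₊ ((Nat.one_le_floor_iff _).2 hB)
  obtain ⟨-, h4⟩ := fam_card (d := d) S (by omega) ⌊B⌋₊
  have hsub : {F : MvPolynomial (Fin 2) ℤ | (F.totalDegree ≤ d ∧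
      (∀ q ∈ S, MvPolynomial.eval ![q.1, q.2] F = 0) ∧
      ∃ x y : ℤ, (x, y) ∉ S ∧ MvPolynomial.eval ![x, y] F = 0) ∧
      (Pool.Agent.K7.H55.TP.ht F : ℝ) ≤ B} ⊆ AlmostAllThroughPoints.Exc d ⌊B⌋₊ S := by
    rintro F ⟨⟨g1, g2, g3⟩, g4⟩
    refine ⟨⟨g1, fun m => ?_, g2⟩, g3⟩
    have h6 := (coeff_le F m).trans (Nat.le_floor g4)
    rw [Int.abs_eq_natAbs]
    exact_mod_cast h6
  have hEf : (AlmostAllThroughPoints.Exc d ⌊B⌋₊ S).Finite := h1.subset fun F hF => hF.1
  refine ⟨hEf.subset hsub, ?_⟩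
  have h5 := Set.ncard_le_ncard hsub hEf
  have hfl : (B / 2 : ℝ) ≤ (⌊B⌋₊ : ℝ) := by
    have g1 := Nat.lt_floor_add_one B
    have g2 : (1 : ℝ) ≤ (⌊B⌋₊ : ℝ) := by exact_mod_cast (Nat.one_le_floor_iff _).2 hB
    linarith
  have hfl' : (⌊B⌋₊ : ℝ) ≤ B := Nat.floor_le hB0.le
  have h6 : (⌊B⌋₊ : ℝ) ^ (-δ) ≤ 2 * B ^ (-δ) := by
    calc (⌊B⌋₊ : ℝ) ^ (-δ) ≤ (B / 2) ^ (-δ) :=
          Real.rpow_le_rpow_of_nonpos (by positivity) hfl (by linarith)
      _ = 2 ^ δ * B ^ (-δ) := by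
          rw [Real.div_rpow hB0.le (by norm_num), Real.rpow_neg (by norm_num : (0:ℝ) ≤ 2), div_inv_eq_mul,
            mul_comm]
      _ ≤ 2 * B ^ (-δ) := by
          refine mul_le_mul_of_nonneg_right ?_ (by positivity)
          calc (2 : ℝ) ^ δ ≤ 2 ^ (1 : ℝ) := Real.rpow_le_rpow_of_exponent_le (by norm_num) hδ1
            _ = 2 := Real.rpow_one _
  have h7 : ((AlmostAllThroughPoints.Fam d ⌊B⌋₊ S).ncard : ℝ) ≤ 3 ^ n * B ^ (n : ℝ) := by
    have g1 : ((AlmostAllThroughPoints.Fam d ⌊B⌋₊ S).ncard : ℝ) ≤ (((2 * ⌊B⌋₊ + 1) ^ n : ℕ) : ℝ) := by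
      exact_mod_cast h4
    refine g1.trans ?_
    rw [Real.rpow_natCast, ← mul_pow]
    push_cast
    refine pow_le_pow_left₀ (by positivity) ?_ n
    linarith
  have hexp : expo d S = (n : ℝ) - δ := by
    unfold expo
    rw [hn, Nat.cast_sub hcard, card_real]
  calc _ ≤ ((AlmostAllThroughPoints.Exc d ⌊B⌋₊ S).ncard : ℝ) := by exact_mod_cast h5
    _ ≤ K * (⌊B⌋₊ : ℝ) ^ (-δ) * (AlmostAllThroughPoints.Fam d ⌊B⌋₊ S).ncard := h3
    _ ≤ K * (2 * B ^ (-δ)) * (3 ^ n * B ^ (n : ℝ)) := by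
        refine mul_le_mul (mul_le_mul_of_nonneg_left h6 hK0) h7 (Nat.cast_nonneg _) ?_
        positivity
    _ = K * 2 * 3 ^ n * (B ^ (n : ℝ) * B ^ (-δ)) := by ring
    _ = K * 2 * 3 ^ n * B ^ (expo d S) := by
        rw [← Real.rpow_add hB0, hexp]
        rfl
    _ ≤ K * 2 * 3 ^ n * B ^ (expo d S + ε) := by
        refine mul_le_mul_of_nonneg_left ?_ (by positivity)
        exact Real.rpow_le_rpow_of_exponent_le hB (by linarith)

theorem expo_nonneg (S : Finset (ℤ × ℤ)) (d : ℕ) (hd : 2 * S.card + 4 ≤ d) : 0 ≤ expo d S := by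
  unfold expo
  have hd0 : (4 : ℝ) ≤ d := by exact_mod_cast (show 4 ≤ d by omega)
  have h1 : (2 * (S.card : ℝ) + 4) ≤ d := by exact_mod_cast hd
  have hδ1 : 1 / (10 ^ 4 * (d : ℝ)) ≤ 1 := by
    rw [div_le_one (by positivity)]
    linarith
  nlinarith

/-- **Theorem.** Let `S` be a finite set of integer points and `d ≥ 2 |S| + 4`; let
`s = (d + 1) (d + 2) / 2 - |S| - 1 / (10 ^ 4 d)`.

(1) The set `V` of the real polynomials of degree at most `d` which vanish on `S` has the dimension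
`(d + 1) (d + 2) / 2 - |S|`, larger than `s`.

(2) There is a constant `κ` such that for each `f` in `V` and each real `t` there is an integer polynomial of degree at most
`d` which vanishes on `S` and whose coefficients differ from those of `t f` by at most `κ`.

(3) Let `v_n ≥ 1` have exponent of convergence at most `ρ ≥ 0` (the sums of `v_n ^ (-t)` converge for `t > ρ`) and `θ < 1`.
There is a set `E` with `dim E ≤ (s + ρ) / (1 - θ)` such that for all `f` not in `E` and all `κ` there is `n₀` such that for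
`n ≥ n₀` NO integer polynomial of degree at most `d` which vanishes on `S`, and whose coefficients differ from those of
`v_n f` by at most `κ v_n ^ θ`, has an integer zero outside `S`. (The bound is smaller than the dimension of `V` for
`ρ = 0` and `θ ≤ 0`, for instance.)

(4) Let `τ > 0`. There is a set `E` with `dim E ≤ s / τ` such that for all `f` not in `E` and all `κ` only finitely many
nonzero integer polynomials `F` of degree at most `d` which vanish on `S` and for which the coefficients of `F / ht F` differ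
from those of `f` by at most `κ (ht F) ^ (-τ)` have an integer zero outside `S`. -/
theorem result (S : Finset (ℤ × ℤ)) (d : ℕ) (hd : 2 * S.card + 4 ≤ d) :
    dimH (V d S) = ENNReal.ofReal (((d : ℝ) + 1) * (d + 2) / 2 - S.card) ∧
    (∃ κ : ℝ, ∀ f ∈ V d S, ∀ t : ℝ, ∃ F ∈ Lat d S, ∀ p : Mon d, |co F p - t * f p| ≤ κ) ∧
    (∀ (v : ℕ → ℝ) (ρ θ : ℝ), (∀ n, 1 ≤ v n) → 0 ≤ ρ →
      (∀ t : ℝ, ρ < t → Summable fun n => (v n) ^ (-t)) → θ < 1 →
      ∃ E : Set (Mon d → ℝ), dimH E ≤ ENNReal.ofReal ((expo d S + ρ) / (1 - θ)) ∧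
        ∀ f : Mon d → ℝ, f ∉ E → ∀ κ : ℝ, ∃ n₀ : ℕ, ∀ n : ℕ, n₀ ≤ n → ∀ F ∈ Lat d S,
          (∀ p : Mon d, |co F p - v n * f p| ≤ κ * (v n) ^ θ) →
          ∀ x y : ℤ, MvPolynomial.eval ![x, y] F = 0 → (x, y) ∈ S) ∧
    (∀ τ : ℝ, 0 < τ → ∃ E : Set (Mon d → ℝ), dimH E ≤ ENNReal.ofReal (expo d S / τ) ∧
      ∀ f : Mon d → ℝ, f ∉ E → ∀ κ : ℝ,
        {F : MvPolynomial (Fin 2) ℤ | F ∈ Lat d S ∧ F ≠ 0 ∧
          (∀ p : Mon d, |co F p / ht F - f p| ≤ κ * (ht F : ℝ) ^ (-τ)) ∧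
          ∃ x y : ℤ, (x, y) ∉ S ∧ MvPolynomial.eval ![x, y] F = 0}.Finite) := by
  classical
  refine ⟨?_, ?_, ?_, ?_⟩
  · have h1 : V d S = ((LinearMap.ker (L ℝ d S) : Submodule ℝ (Mon d → ℝ)) : Set (Mon d → ℝ)) := by
      ext f
      rw [SetLike.mem_coe, LinearMap.mem_ker]
      constructor
      · intro h
        funext q
        exact h q.1 q.2
      · intro h q hq
        exact congrFun h ⟨q, hq⟩
    have h2 : dimH (V d S) = Module.finrank ℝ (LinearMap.ker (L ℝ d S)) := by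
      rw [h1, ← Real.dimH_univ_eq_finrank, ← (isometry_subtype_coe
        (s := ((LinearMap.ker (L ℝ d S) : Submodule ℝ (Mon d → ℝ)) : Set (Mon d → ℝ)))).dimH_image
        Set.univ, Set.image_univ, Subtype.range_coe]
    have h3 := finrank_ker (d := d) ℝ S (by omega)
    have h4 : ((Module.finrank ℝ (LinearMap.ker (L ℝ d S)) : ℕ) : ℝ) =
        ((d : ℝ) + 1) * (d + 2) / 2 - S.card := by
      rw [← card_real, ← h3]
      push_cast
      ring
    rw [h2, ← h4, ENNReal.ofReal_natCast]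
  · obtain ⟨κ, h⟩ := rounding (d := d) S (by omega)
    refine ⟨κ, fun f hf t => ?_⟩
    obtain ⟨c, h1, h2⟩ := h f hf t
    have hdeg := Pool.Agent.H322R2.totalDegree_FM_le c
    have hco : ∀ p : Mon d, (Pool.Agent.H322R2.FM c).coeff (ex p) = c p := by
      intro p
      rw [Pool.Agent.H322R2.coeff_FM, ex_zero, ex_one, Pool.Agent.H322R2.cf, dif_pos p.2]
    refine ⟨Pool.Agent.H322R2.FM c, ⟨hdeg, fun q hq => ?_⟩, fun p => ?_⟩
    · rw [eval_eq _ hdeg]
      simp only [hco]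
      exact h1 q hq
    · have h3 : co (Pool.Agent.H322R2.FM c) p = ((c p : ℤ) : ℝ) := by
        rw [← hco p]
        rfl
      rw [h3]
      exact h2 p
  · intro v ρ θ hv hρ hsum hθ
    obtain ⟨E, h1, h2⟩ := windows (expo_nonneg S d hd) (few S d hd) hv hρ hsum hθ
    refine ⟨E, h1, fun f hf κ => ?_⟩
    have h3 := (h2 f hf κ).image Prod.fst
    obtain ⟨m, hm⟩ := h3.bddAbove
    refine ⟨m + 1, fun n hn F hF hFc x y hxy => ?_⟩
    by_contra hcon
    have h4 : n ≤ m := hm ⟨(n, F), ⟨⟨hF.1, hF.2, x, y, hcon, hxy⟩, hFc⟩, rfl⟩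
    omega
  · intro τ hτ
    obtain ⟨E, h1, h2⟩ := directions (expo_nonneg S d hd) (few S d hd) hτ
    refine ⟨E, h1, fun f hf κ => (h2 f hf κ).subset ?_⟩
    rintro F ⟨h3, h4, h5, h6⟩
    exact ⟨⟨h4, h3.1, h3.2, h6⟩, h5⟩

end Pool.Agent.Results.MP_2d259b_nt.RealCurvesThroughPoints
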