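import Pool.Agent.K7.H12.SR.Main
import Pool.Agent.Results.MP_2d259b_nt.FibresOffPolynomialValues

/-!
# Effective bounds for the integer points on all but few fibres `F(x, y) = t` near a fixed number
# plus a number with small radical

Let `F ∈ ℤ[x, y]` have degree `d ≥ 4` and a squarefree leading form, and let `h(F)` be the sum of the
absolute values of its coefficients. An integer `t` is called bad if the fibre `F(x, y) = t` has an
integer point with `max (|x|, |y|) > ((d + 1) (h(F) + |t|)) ^ C`, `C = 10 ^ 17 * 1296 ^ d * (d + 1) ^ 15`.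
Let `α ≠ 0` and `c` be integers.

1. At most `D Y (1 + log Y) ^ e` bad integers `t`, of ANY size, are such that the radical of `α t - c` (the
   product of its prime factors) is at most `Y`.

2. At most `E ^ (|P| + 1)` bad integers `t` are such that all prime factors of `α t - c` are in the finite
   set `P`.

3. In particular, for given `a ≠ 0`, `|b| ≥ 2`, all but finitely many of the integers `t` of the form
   `(a b ^ n + c) / α` are not bad: for instance `t = b ^ n + c`, or the repunits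
   `t = (b ^ n - 1) / (b - 1)`.

This is true for all rational numbers `q = c / α` outside a set of at most `10 ^ 9 * 36 ^ d * (d + 1) ^ 8`
elements. For these finitely many numbers `q` it is true for the integers `t` which are not of the form
`q + A z ^ d`, `z ∈ ℤ`, for boundedly many rational numbers `A`. There are infinitely many integers `t`
with given primes in `α t - c`, so that the statements do not follow from bounds for the number of bad `t`
up to a given size.

Proof: by the starting file `FibresOffPolynomialValues` the bad integers are values of boundedly many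
polynomials `U` of degree `d`. If `α U - c` is not of the form `A (X - r) ^ d`, it has two different roots,
and the values with small radical are counted by the theorem of the starting library on the Thue-Mahler
equation on average (`Pool.Agent.TH498.HF.TM`, `TMsum`).
-/

set_option autoImplicit false

namespace Pool.Agent.Results.MP_2d259b_nt.SmallRadicalFibres

open Polynomial Finset

/-- the sum `h(F)` of the absolute values of the coefficients -/
def height (F : MvPolynomial (Fin 2) ℤ) : ℕ := ∑ m ∈ F.support, (F.coeff m).natAbs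

/-- the curve `F(x, y) = t` has an integer point with
`max (|x|, |y|) > ((d + 1) (h(F) + |t|)) ^ (10 ^ 17 * 1296 ^ d * (d + 1) ^ 15)`, `d` the degree of `F` -/
def Bad (F : MvPolynomial (Fin 2) ℤ) (t : ℤ) : Prop :=
  ∃ x y : ℤ, MvPolynomial.eval ![x, y] F = t ∧
    ((F.totalDegree + 1) * (height F + t.natAbs)) ^
      (10 ^ 17 * 1296 ^ F.totalDegree * (F.totalDegree + 1) ^ 15) < max x.natAbs y.natAbs

/-- the product of the primes dividing `n` -/
def rad (n : ℤ) : ℕ := ∏ p ∈ n.natAbs.primeFactors, p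

/-- `t = q + A z ^ d` with `(q, A)` in `Q` and an integer `z` -/
def Special (d : ℕ) (Q : Finset (ℚ × ℚ)) (q : ℚ) (t : ℤ) : Prop :=
  ∃ A : ℚ, (q, A) ∈ Q ∧ ∃ z : ℤ, (t : ℚ) = q + A * (z : ℚ) ^ d

lemma free_iff (d : ℕ) (Q : Finset (ℚ × ℚ)) (q : ℚ) (t : ℤ) :
    K7.H12.SR.Free d Q q t ↔ ¬ Special d Q q t := by
  unfold K7.H12.SR.Free Special
  push Not
  exact Iff.rfl

/-- **Theorem.** Let `F ∈ ℤ[x, y]` have degree `d ≥ 4` and a squarefree leading form. There is a set `Q`
of at most `10 ^ 9 * 36 ^ d * (d + 1) ^ 8` pairs `(q, A)` such that for all integers `α ≠ 0` and `c`,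
`q = c / α`:

(1) there are `D`, `e` such that for all `Y ≥ 1` at most `D * Y * (1 + log Y) ^ e` bad integers `t` not of
the form `q + A * z ^ d`, `(q, A) ∈ Q`, have the radical of `α * t - c` at most `Y`;

(2) there is `E` such that for every finite set `P` at most `E ^ (|P| + 1)` bad integers `t` not of this
form are such that all prime factors of `α * t - c` are in `P`;

(3) for all `a ≠ 0` and `b`, `|b| ≥ 2`, and all large `n` the integer `t` with `α * t = a * b ^ n + c` (if
there is one) is not bad, or it is of the form `q + A * z ^ d`, `(q, A) ∈ Q`. -/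
theorem result (d : ℕ) (hd : 4 ≤ d) (F : MvPolynomial (Fin 2) ℤ) (hF : F.totalDegree = d)
    (hsq : Squarefree (MvPolynomial.map (Int.castRingHom ℚ)
      (MvPolynomial.homogeneousComponent d F))) :
    ∃ Q : Finset (ℚ × ℚ), Q.card ≤ 10 ^ 9 * 36 ^ d * (d + 1) ^ 8 ∧ ∀ α c : ℤ, α ≠ 0 →
      (∃ (D : ℝ) (e : ℕ), ∀ Y : ℝ, 1 ≤ Y →
        {t : ℤ | Bad F t ∧ (rad (α * t - c) : ℝ) ≤ Y ∧ ¬ Special d Q (c / α) t}.Finite ∧
        (({t : ℤ | Bad F t ∧ (rad (α * t - c) : ℝ) ≤ Y ∧ ¬ Special d Q (c / α) t}.ncard : ℕ) : ℝ) ≤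
          D * Y * (1 + Real.log Y) ^ e) ∧
      (∃ E : ℕ, ∀ P : Finset ℕ,
        {t : ℤ | Bad F t ∧ (∀ p : ℕ, p.Prime → (p : ℤ) ∣ α * t - c → p ∈ P) ∧
          ¬ Special d Q (c / α) t}.Finite ∧
        {t : ℤ | Bad F t ∧ (∀ p : ℕ, p.Prime → (p : ℤ) ∣ α * t - c → p ∈ P) ∧
          ¬ Special d Q (c / α) t}.ncard ≤ E ^ (P.card + 1)) ∧
      (∀ a b : ℤ, a ≠ 0 → 2 ≤ |b| → ∃ n₀ : ℕ, ∀ n : ℕ, n₀ ≤ n → ∀ t : ℤ, α * t = a * b ^ n + c →
        Bad F t → Special d Q (c / α) t) := by
  classical
  subst hF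
  obtain ⟨⟨S, hS1, hS2, hS3⟩, -⟩ := FibresOffPolynomialValues.result F.totalDegree hd F rfl hsq
  obtain ⟨Q, hQ1, hQ2⟩ := K7.H12.SR.main F.totalDegree (by omega) S hS2
  have hval : ∀ t : ℤ, Bad F t → ∃ U ∈ S, ∃ k : ℤ, U.eval k = t := by
    rintro t ⟨x, y, h1, h2⟩
    by_contra hcon
    push Not at hcon
    exact absurd h2 (not_lt.2 (hS3 t hcon x y h1))
  refine ⟨Q, hQ1.trans hS1, fun α c hα => ?_⟩
  obtain ⟨⟨D, e, h1⟩, ⟨E, h2⟩⟩ := hQ2 α c hα
  have part2 : ∀ P : Finset ℕ,
        {t : ℤ | Bad F t ∧ (∀ p : ℕ, p.Prime → (p : ℤ) ∣ α * t - c → p ∈ P) ∧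
          ¬ Special F.totalDegree Q (c / α) t}.Finite ∧
        {t : ℤ | Bad F t ∧ (∀ p : ℕ, p.Prime → (p : ℤ) ∣ α * t - c → p ∈ P) ∧
          ¬ Special F.totalDegree Q (c / α) t}.ncard ≤ E ^ (P.card + 1) := by
    intro P
    obtain ⟨a1, a2⟩ := K7.H12.SR.finite_ncard
      (E := {t : ℤ | Bad F t ∧ (∀ p : ℕ, p.Prime → (p : ℤ) ∣ α * t - c → p ∈ P) ∧
          ¬ Special F.totalDegree Q (c / α) t}) (b := ((E ^ (P.card + 1) : ℕ) : ℝ)) (fun T hT => by
        have := h2 P T fun t ht => by
          obtain ⟨b1, b2, b3⟩ := hT t ht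
          exact ⟨hval t b1, b2, (free_iff _ _ _ _).2 b3⟩
        exact_mod_cast this)
    exact ⟨a1, by exact_mod_cast a2⟩
  refine ⟨⟨D, e, fun Y hY => ?_⟩, ⟨E, part2⟩, ?_⟩
  · exact K7.H12.SR.finite_ncard fun T hT => h1 Y hY T fun t ht => by
      obtain ⟨b1, b2, b3⟩ := hT t ht
      exact ⟨hval t b1, b2, (free_iff _ _ _ _).2 b3⟩
  · intro a b ha hb
    obtain ⟨hfin, -⟩ := part2 (a * b).natAbs.primeFactors
    have hb0 : b ≠ 0 := by
      rintro rfl
      norm_num at hb
    have hb2 : 2 ≤ b.natAbs := by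
      rw [Int.abs_eq_natAbs] at hb
      exact_mod_cast hb
    have hN : {n : ℕ | ∃ t : ℤ, α * t = a * b ^ n + c ∧ Bad F t ∧
        ¬ Special F.totalDegree Q (c / α) t}.Finite := by
      choose! τ hτ using fun (n : ℕ) (hn : n ∈ {n : ℕ | ∃ t : ℤ, α * t = a * b ^ n + c ∧ Bad F t ∧
        ¬ Special F.totalDegree Q (c / α) t}) => hn
      refine Set.Finite.of_injOn (f := τ) (fun n hn => ?_) (fun n hn m hm hnm => ?_) hfin
      · obtain ⟨h3, h4, h5⟩ := hτ n hn
        refine ⟨h4, fun p hp hpd => ?_, h5⟩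
        rw [h3, add_sub_cancel_right] at hpd
        rw [Nat.mem_primeFactors]
        refine ⟨hp, ?_, Int.natAbs_ne_zero.2 (mul_ne_zero ha hb0)⟩
        apply Int.natCast_dvd.1
        rcases (Nat.prime_iff_prime_int.1 hp).dvd_or_dvd hpd with h6 | h6
        · exact Dvd.dvd.mul_right h6 _
        · exact Dvd.dvd.mul_left ((Nat.prime_iff_prime_int.1 hp).dvd_of_dvd_pow h6) _
      · have h3 := (hτ n hn).1
        have h4 := (hτ m hm).1
        rw [hnm] at h3
        have h5 : b ^ n = b ^ m := by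
          have : a * b ^ n = a * b ^ m := by linarith
          exact mul_left_cancel₀ ha this
        have h6 : b.natAbs ^ n = b.natAbs ^ m := by
          rw [← Int.natAbs_pow, ← Int.natAbs_pow, h5]
        exact Nat.pow_right_injective hb2 h6
    obtain ⟨n₀, hn₀⟩ := hN.bddAbove
    refine ⟨n₀ + 1, fun n hn t ht hbad => ?_⟩
    by_contra hcon
    have := hn₀ ⟨t, ht, hbad, hcon⟩
    omega

end Pool.Agent.Results.MP_2d259b_nt.SmallRadicalFibres
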