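import Pool.Agent.K7.H67.SIV.Poly
import Pool.Agent.K7.H67.VDC.Smooth
import Pool.Agent.Results.MP_2d259b_nt.FibresOffPolynomialValues

/-!
# Effective bounds for the integer points on the curves `F (x, y) = t` for almost all members `t` of arbitrarily sparse families

Let `F ∈ ℤ[x, y]` have degree `d ≥ 4` and a leading form that is squarefree over `ℚ`. The starting files show that the integer points on the curve
`F (x, y) = t` are bounded by `((d + 1) (h (F) + |t|)) ^ C (d)` for all but about `H ^ (1 / d)` of the integers `|t| ≤ H`; this does not say anything on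
families with fewer than `H ^ (1 / d)` members.

**Theorem.** Let `t i`, `i ∈ T`, be any finite family of integers, of any size, such that for all `q ≤ X` each residue class modulo `q` contains
`|T| / q` of the `t i` up to an error of at most `|T| / X`. If `X ≥ X₀ (F)`, then the bound holds for all but `|T| / X ^ (1 / 4)` of the `t i`.

Examples, with `X` a power of the parameter, and so with a power saving in the number of exceptions:

* `t = ⌊G (n)⌋`, `N ≤ n < N + L`, `N ^ (1 - c) ≤ L ≤ N`, for smooth functions `G` which do not grow like polynomials of integral degree;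
* `t = ⌊a n ^ r + b⌋`, `N ≤ n < N + L`, for every real `r > 0` that is not an integer: if `r > d`, this family is sparser than the values of the
  polynomials of degree `d`;
* the least residues of `b u ^ m + a` modulo a prime `p`, `1 ≤ m ≤ x`, where `p ^ ε ≤ x` and `x` is at most the order of `u`;
* the least residues modulo `p` of `u_1 ⋯ u_k + f_1 + … + f_k`, where `u_i` runs over an arbitrary set of at least `p ^ ε` residues, `f_i` is an
  arbitrary function of the variables other than `u_i`, and `k ≥ k₀ (ε)`.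

Proof. By the starting files an exceptional `t` is a value of one of `C (d)` polynomials `U`, which are constant or of degree `d`. For a positive
proportion of the primes `p` (Chebotarev) `U` takes equal values at two neighbouring residues, and then it misses at least `p / (2 d)` residues
(power sums and Vandermonde). A second moment over these primes shows that few members of an equidistributed family avoid the missing residues.
-/

set_option autoImplicit false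

open Finset

namespace Pool.Agent.Results.MP_2d259b_nt.SparseFibres

/-- Modulo each `q ≤ X`, each residue class contains `|T| / q` of the integers `t i`, `i ∈ T`, up to an error of at most `|T| / X`. -/
def Equidistributed {ι : Type} (T : Finset ι) (t : ι → ℤ) (X : ℕ) : Prop :=
  ∀ q : ℕ, 1 ≤ q → q ≤ X → ∀ r : ℤ, |((T.filter (fun i => (q : ℤ) ∣ t i - r)).card : ℝ) - (T.card : ℝ) / q| ≤ (T.card : ℝ) / X

/-- the sum of the absolute values of the coefficients -/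
noncomputable def h (F : MvPolynomial (Fin 2) ℤ) : ℕ := ∑ m ∈ F.support, (F.coeff m).natAbs

/-- The integer points on the curve `F (x, y) = t` are bounded by `((d + 1) (h (F) + |t|)) ^ (10 ^ 17 1296 ^ d (d + 1) ^ 15)`, `d` the degree of `F`. -/
def Bounded (F : MvPolynomial (Fin 2) ℤ) (t : ℤ) : Prop :=
  ∀ x y : ℤ, MvPolynomial.eval ![x, y] F = t →
    max x.natAbs y.natAbs ≤ ((F.totalDegree + 1) * (h F + t.natAbs)) ^ (10 ^ 17 * 1296 ^ F.totalDegree * (F.totalDegree + 1) ^ 15)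

open Classical in
/-- `Bounded F (t i)` for all but at most `ρ |T|` of the `i ∈ T` -/
def AlmostAllBounded {ι : Type} (F : MvPolynomial (Fin 2) ℤ) (T : Finset ι) (t : ι → ℤ) (ρ : ℝ) : Prop :=
  ((T.filter (fun i => ¬ Bounded F (t i))).card : ℝ) ≤ ρ * T.card

/-- `G 0` has on the positive numbers the derivatives `G 1`, …, `G (k + 2)`; on `[N, 3 N]` the function `G 0` is nonnegative, `G (k + 1)` is between `lam`
and `B lam`, where `N ^ (-1 + τ) ≤ lam ≤ N ^ (-τ)`, and `G (k + 2)` is nonpositive. -/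
def Smooth (k : ℕ) (B τ : ℝ) (N : ℕ) (G : ℕ → ℝ → ℝ) : Prop :=
  (∀ r < k + 2, ∀ x : ℝ, 0 < x → HasDerivAt (G r) (G (r + 1) x) x) ∧
  ∃ lam : ℝ, (N : ℝ) ^ (-1 + τ) ≤ lam ∧ lam ≤ (N : ℝ) ^ (-τ) ∧
    ∀ x : ℝ, N ≤ x → x ≤ 3 * N → 0 ≤ G 0 x ∧ lam ≤ G (k + 1) x ∧ G (k + 1) x ≤ B * lam ∧ G (k + 2) x ≤ 0

/-- the least residue of `b u ^ m + a` modulo `p` -/
def power {p : ℕ} (b a : ZMod p) (u : (ZMod p)ˣ) (m : ℕ) : ℕ := (b * ((u ^ m : (ZMod p)ˣ) : ZMod p) + a).val

/-- the least residue of `u_1 ⋯ u_k + f_1 (u) + … + f_k (u)` modulo `p` -/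
def multilinear {p k : ℕ} (f : Fin k → (Fin k → ZMod p) → ZMod p) (u : Fin k → ZMod p) : ℕ := (∏ i, u i + ∑ i, f i u).val

/-- the criterion -/
lemma criterion (F : MvPolynomial (Fin 2) ℤ) (hd : 4 ≤ F.totalDegree) (hsq : Squarefree (MvPolynomial.map (Int.castRingHom ℚ)
    (MvPolynomial.homogeneousComponent F.totalDegree F))) :
    ∃ X₀ : ℕ, ∀ X : ℕ, X₀ ≤ X → ∀ (ι : Type) (T : Finset ι) (t : ι → ℤ), Equidistributed T t X →
      AlmostAllBounded F T t ((X : ℝ) ^ (-(1 / 4) : ℝ)) := by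
  classical
  obtain ⟨⟨S, -, hS, hF⟩, -⟩ := FibresOffPolynomialValues.result F.totalDegree hd F rfl hsq
  have h1 : ∀ U : Polynomial ℤ, ∃ X₁ : ℕ, 1 ≤ X₁ ∧ ((U.natDegree = F.totalDegree ∨ U.natDegree = 0) → ∀ X : ℕ, X₁ ≤ X →
      ∀ (ι : Type) (T : Finset ι) (t : ι → ℤ), Equidistributed T t X →
      ((T.filter (fun i => ∃ k : ℤ, U.eval k = t i)).card : ℝ) * (X : ℝ) ^ (7 / 25 : ℝ) ≤ 2 * T.card) := by
    intro U
    by_cases hU : 2 ≤ U.natDegree
    · obtain ⟨X₁, hX₁⟩ := Pool.Agent.K7.H67.SIV.few_values_family U hU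
      refine ⟨X₁ + 1, by omega, fun _ X hX ι T t hT => ?_⟩
      have h2 := hX₁ X (by omega) ι T t hT
      have h3 : (0 : ℝ) ≤ T.card := Nat.cast_nonneg _
      linarith
    · refine ⟨1, le_rfl, fun hU' X hX ι T t hT => ?_⟩
      have hU0 : U.natDegree = 0 := by omega
      rw [Polynomial.natDegree_eq_zero] at hU0
      obtain ⟨u, rfl⟩ := hU0
      have h2 := Pool.Agent.K7.H67.SIV.few_constant u X hX T t hT
      have hX1 : (1 : ℝ) ≤ X := by exact_mod_cast hX
      have h3 : T.filter (fun i => ∃ k : ℤ, (Polynomial.C u).eval k = t i) = T.filter (fun i => u = t i) := by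
        apply filter_congr
        intro i _
        constructor
        · rintro ⟨k, hk⟩
          rwa [Polynomial.eval_C] at hk
        · intro hu
          exact ⟨0, by rw [Polynomial.eval_C]; exact hu⟩
      rw [h3]
      refine le_trans ?_ h2
      apply mul_le_mul_of_nonneg_left _ (Nat.cast_nonneg _)
      calc (X : ℝ) ^ (7 / 25 : ℝ) ≤ (X : ℝ) ^ (1 : ℝ) := Real.rpow_le_rpow_of_exponent_le hX1 (by norm_num)
        _ = X := Real.rpow_one _
  choose X₁ hX₁1 hX₁ using h1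
  obtain ⟨X₂, hX₂⟩ : ∃ X₂ : ℕ, ∀ X : ℕ, X₂ ≤ X → (2 * S.card : ℝ) ≤ (X : ℝ) ^ (3 / 100 : ℝ) :=
    Filter.eventually_atTop.1 (((tendsto_rpow_atTop (by norm_num : (0 : ℝ) < 3 / 100)).comp tendsto_natCast_atTop_atTop).eventually
      (Filter.eventually_ge_atTop _))
  refine ⟨∑ U ∈ S, X₁ U + X₂ + 1, fun X hX ι T t hT => ?_⟩
  unfold AlmostAllBounded
  have hX1 : (1 : ℝ) ≤ X := by exact_mod_cast (by omega : 1 ≤ X)
  have hX0 : (0 : ℝ) < X := by linarith
  have h2 : T.filter (fun i => ¬ Bounded F (t i)) ⊆ S.biUnion (fun U => T.filter (fun i => ∃ k : ℤ, U.eval k = t i)) := by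
    intro i hi
    rw [mem_filter] at hi
    rw [mem_biUnion]
    by_contra hcon
    apply hi.2
    intro x y hxy
    refine hF (t i) ?_ x y hxy
    intro U hU k hk
    exact hcon ⟨U, hU, mem_filter.2 ⟨hi.1, k, hk⟩⟩
  have h3 : ∀ U ∈ S, ((T.filter (fun i => ∃ k : ℤ, U.eval k = t i)).card : ℝ) ≤ 2 * T.card * (X : ℝ) ^ (-(7 / 25) : ℝ) := by
    intro U hU
    have h4 : X₁ U ≤ X := by
      have := single_le_sum (f := X₁) (fun _ _ => Nat.zero_le _) hU
      omega
    have h5 := hX₁ U (hS U hU) X h4 ι T t hT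
    rw [Real.rpow_neg hX0.le, ← div_eq_mul_inv, le_div_iff₀ (by positivity)]
    exact h5
  calc ((T.filter (fun i => ¬ Bounded F (t i))).card : ℝ) ≤ ((S.biUnion (fun U => T.filter (fun i => ∃ k : ℤ, U.eval k = t i))).card : ℝ) := by
        exact_mod_cast card_le_card h2
    _ ≤ ∑ U ∈ S, ((T.filter (fun i => ∃ k : ℤ, U.eval k = t i)).card : ℝ) := by exact_mod_cast card_biUnion_le
    _ ≤ ∑ _U ∈ S, 2 * T.card * (X : ℝ) ^ (-(7 / 25) : ℝ) := sum_le_sum h3
    _ = (2 * S.card) * (T.card * (X : ℝ) ^ (-(7 / 25) : ℝ)) := by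
        rw [sum_const, nsmul_eq_mul]
        ring
    _ ≤ (X : ℝ) ^ (3 / 100 : ℝ) * (T.card * (X : ℝ) ^ (-(7 / 25) : ℝ)) := by
        apply mul_le_mul_of_nonneg_right (hX₂ X (by omega))
        positivity
    _ = (X : ℝ) ^ (-(1 / 4) : ℝ) * T.card := by
        have e1 : (X : ℝ) ^ (-(1 / 4) : ℝ) = (X : ℝ) ^ (3 / 100 : ℝ) * (X : ℝ) ^ (-(7 / 25) : ℝ) := by
          rw [← Real.rpow_add hX0]
          norm_num
        rw [e1]
        ring

/-- families of natural numbers which are equidistributed up to a power of `N` -/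
lemma criterion_pow (F : MvPolynomial (Fin 2) ℤ) (hd : 4 ≤ F.totalDegree) (hsq : Squarefree (MvPolynomial.map (Int.castRingHom ℚ)
    (MvPolynomial.homogeneousComponent F.totalDegree F))) (η : ℝ) (hη : 0 < η) :
    ∃ N₀ : ℕ, ∀ N : ℕ, N₀ ≤ N → ∀ (ι : Type) (T : Finset ι) (t : ι → ℕ),
      (∀ X : ℕ, (X : ℝ) ≤ (N : ℝ) ^ η → Pool.Agent.K7.H67.CUB.EquiD T t X) →
      AlmostAllBounded F T (fun i => (t i : ℤ)) ((N : ℝ) ^ (-(η / 8))) := by
  classical
  obtain ⟨X₀, hX₀⟩ := criterion F hd hsq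
  obtain ⟨N₀, hN₀⟩ : ∃ N₀ : ℕ, ∀ N : ℕ, N₀ ≤ N → (X₀ + 2 : ℝ) ≤ (N : ℝ) ^ (η / 2) :=
    Filter.eventually_atTop.1 (((tendsto_rpow_atTop (by positivity : (0 : ℝ) < η / 2)).comp tendsto_natCast_atTop_atTop).eventually
      (Filter.eventually_ge_atTop _))
  refine ⟨N₀ + 1, fun N hN ι T t hT => ?_⟩
  have hN1 : (1 : ℝ) ≤ N := by exact_mod_cast (by omega : 1 ≤ N)
  have hN0 : (0 : ℝ) < N := by linarith
  have h0 := hN₀ N (by omega)
  obtain ⟨X, hX⟩ : ∃ X : ℕ, X = ⌊(N : ℝ) ^ η⌋₊ := ⟨_, rfl⟩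
  have hXle : (X : ℝ) ≤ (N : ℝ) ^ η := by rw [hX]; exact Nat.floor_le (by positivity)
  have hXge : (N : ℝ) ^ (η / 2) ≤ X := by
    have h3 : (N : ℝ) ^ η = (N : ℝ) ^ (η / 2) * (N : ℝ) ^ (η / 2) := by
      rw [← Real.rpow_add hN0]
      congr 1
      ring
    have h4 : (N : ℝ) ^ η < X + 1 := by rw [hX]; exact Nat.lt_floor_add_one _
    rw [h3] at h4
    have h5 : (0 : ℝ) ≤ X₀ := Nat.cast_nonneg _
    nlinarith
  have hXX₀ : X₀ ≤ X := by
    have : (X₀ : ℝ) ≤ X := by linarith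
    exact_mod_cast this
  have h1 := hX₀ X hXX₀ ι T (fun i => (t i : ℤ)) (Pool.Agent.K7.H67.SIV.equiZ_of_nat T t X (hT X hXle))
  unfold AlmostAllBounded at h1 ⊢
  refine h1.trans ?_
  apply mul_le_mul_of_nonneg_right _ (Nat.cast_nonneg _)
  have hX0 : (0 : ℝ) < X := lt_of_lt_of_le (by positivity) hXge
  calc (X : ℝ) ^ (-(1 / 4) : ℝ) ≤ ((N : ℝ) ^ (η / 2)) ^ (-(1 / 4) : ℝ) :=
        Real.rpow_le_rpow_of_nonpos (by positivity) hXge (by norm_num)
    _ = (N : ℝ) ^ (-(η / 8)) := by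
        rw [← Real.rpow_mul hN0.le]
        congr 1
        ring

/-- **Effective bounds for the integer points on the fibres over sparse families.** See the introduction of the file. The constants `X₀`, `N₀`, `p₀` depend on
`F` (and on `k`, `B`, `τ`; `r`; `ε`, `k`), the exponents `c` do not depend on `F`. -/
theorem result :
    -- (1) the criterion
    (∀ F : MvPolynomial (Fin 2) ℤ, 4 ≤ F.totalDegree →
      Squarefree (MvPolynomial.map (Int.castRingHom ℚ) (MvPolynomial.homogeneousComponent F.totalDegree F)) →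
      ∃ X₀ : ℕ, ∀ X : ℕ, X₀ ≤ X → ∀ (ι : Type) (T : Finset ι) (t : ι → ℤ), Equidistributed T t X →
        AlmostAllBounded F T t ((X : ℝ) ^ (-(1 / 4) : ℝ))) ∧
    -- (2) integer parts of smooth functions
    (∀ (k : ℕ) (B τ : ℝ), 1 ≤ B → 0 < τ → ∃ c : ℝ, 0 < c ∧ ∀ F : MvPolynomial (Fin 2) ℤ, 4 ≤ F.totalDegree →
      Squarefree (MvPolynomial.map (Int.castRingHom ℚ) (MvPolynomial.homogeneousComponent F.totalDegree F)) →
      ∃ N₀ : ℕ, ∀ N : ℕ, N₀ ≤ N → ∀ G : ℕ → ℝ → ℝ, Smooth k B τ N G → ∀ L : ℕ, (N : ℝ) ^ (1 - c) ≤ L → L ≤ N →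
        AlmostAllBounded F (Ico N (N + L)) (fun n => (⌊G 0 (n : ℝ)⌋₊ : ℤ)) ((N : ℝ) ^ (-c))) ∧
    -- (3) the sequences of Piatetski-Shapiro
    (∀ r : ℝ, 0 < r → (∀ n : ℕ, r ≠ n) → ∃ c : ℝ, 0 < c ∧ ∀ F : MvPolynomial (Fin 2) ℤ, 4 ≤ F.totalDegree →
      Squarefree (MvPolynomial.map (Int.castRingHom ℚ) (MvPolynomial.homogeneousComponent F.totalDegree F)) →
      ∃ N₀ : ℕ, ∀ N : ℕ, N₀ ≤ N → ∀ a b : ℝ, (N : ℝ) ^ (-c) ≤ a → a ≤ (N : ℝ) ^ c → 0 ≤ b → ∀ L : ℕ, (N : ℝ) ^ (1 - c) ≤ L → L ≤ N →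
        AlmostAllBounded F (Ico N (N + L)) (fun n => (⌊a * (n : ℝ) ^ r + b⌋₊ : ℤ)) ((N : ℝ) ^ (-c))) ∧
    -- (4) geometric progressions modulo primes
    (∀ ε : ℝ, 0 < ε → ∃ c : ℝ, 0 < c ∧ ∀ F : MvPolynomial (Fin 2) ℤ, 4 ≤ F.totalDegree →
      Squarefree (MvPolynomial.map (Int.castRingHom ℚ) (MvPolynomial.homogeneousComponent F.totalDegree F)) →
      ∃ p₀ : ℕ, ∀ p : ℕ, p₀ ≤ p → p.Prime → ∀ (b a : ZMod p) (u : (ZMod p)ˣ) (x : ℕ), b ≠ 0 → (p : ℝ) ^ ε ≤ x → x ≤ orderOf u →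
        AlmostAllBounded F (Icc 1 x) (fun m => (power b a u m : ℤ)) ((p : ℝ) ^ (-c))) ∧
    -- (5) multilinear families modulo primes
    (∀ ε : ℝ, 0 < ε → ∃ k₀ : ℕ, ∀ k : ℕ, k₀ ≤ k → ∃ c : ℝ, 0 < c ∧ ∀ F : MvPolynomial (Fin 2) ℤ, 4 ≤ F.totalDegree →
      Squarefree (MvPolynomial.map (Int.castRingHom ℚ) (MvPolynomial.homogeneousComponent F.totalDegree F)) →
      ∃ p₀ : ℕ, ∀ p : ℕ, p₀ ≤ p → p.Prime → ∀ (S : Fin k → Finset (ZMod p)) (f : Fin k → (Fin k → ZMod p) → ZMod p),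
        (∀ i, (p : ℝ) ^ ε ≤ (S i).card) → (∀ (i : Fin k) (u v : Fin k → ZMod p), (∀ j, j ≠ i → u j = v j) → f i u = f i v) →
        AlmostAllBounded F (Fintype.piFinset S) (fun u => (multilinear f u : ℤ)) ((p : ℝ) ^ (-c))) := by
  refine ⟨fun F hd hsq => criterion F hd hsq, fun k B τ hB hτ => ?_, fun r hr hri => ?_, fun ε hε => ?_, fun ε hε => ?_⟩
  · obtain ⟨η, hη, N₁, h1⟩ := Pool.Agent.K7.H67.VDC.smooth_equi k B τ hB hτ
    refine ⟨η / 8, by positivity, fun F hd hsq => ?_⟩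
    obtain ⟨N₂, h2⟩ := criterion_pow F hd hsq η hη
    refine ⟨N₁ + N₂ + 1, fun N hN G hG L hL1 hL2 => ?_⟩
    have hN1 : (1 : ℝ) ≤ N := by exact_mod_cast (by omega : 1 ≤ N)
    exact h2 N (by omega) ℕ _ _ (h1 N (by omega) G hG L ((Real.rpow_le_rpow_of_exponent_le hN1 (by linarith)).trans hL1) hL2)
  · obtain ⟨η, hη, N₁, h1⟩ := Pool.Agent.K7.H67.VDC.ps_equi r hr hri
    refine ⟨η / 8, by positivity, fun F hd hsq => ?_⟩
    obtain ⟨N₂, h2⟩ := criterion_pow F hd hsq η hη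
    refine ⟨N₁ + N₂ + 1, fun N hN a b ha1 ha2 hb L hL1 hL2 => ?_⟩
    have hN1 : (1 : ℝ) ≤ N := by exact_mod_cast (by omega : 1 ≤ N)
    exact h2 N (by omega) ℕ _ _ (h1 N (by omega) a b ((Real.rpow_le_rpow_of_exponent_le hN1 (by linarith)).trans ha1)
      (ha2.trans (Real.rpow_le_rpow_of_exponent_le hN1 (by linarith))) hb L
      ((Real.rpow_le_rpow_of_exponent_le hN1 (by linarith)).trans hL1) hL2)
  · obtain ⟨γ, hγ, p₁, hsup⟩ := Pool.Agent.K7.H67.BG.pw_sup ε hε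
    obtain ⟨p₂, heq⟩ := Pool.Agent.K7.H67.CUB.equi_of (min γ 1) (by positivity) (min_le_right _ _)
    refine ⟨min γ 1 / 2 / 8, by positivity, fun F hd hsq => ?_⟩
    obtain ⟨N₂, h2⟩ := criterion_pow F hd hsq (min γ 1 / 2) (by positivity)
    refine ⟨p₁ + p₂ + N₂, fun p hp hpp b a u x hb hx hxu => ?_⟩
    have : NeZero p := ⟨hpp.ne_zero⟩
    refine h2 p (by omega) ℕ (Icc 1 x) (power b a u) (fun X hX => ?_)
    refine heq p (by omega) hpp ℕ (Icc 1 x) (power b a u) (fun i _ => ZMod.val_lt _) ?_ X hX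
    intro j hj1 hjp
    refine (hsup p (by omega) hpp b a u x hb hx hxu j hj1 hjp).trans ?_
    apply mul_le_mul_of_nonneg_left _ (Nat.cast_nonneg _)
    apply Real.rpow_le_rpow_of_exponent_le (by exact_mod_cast hpp.one_lt.le)
    exact neg_le_neg (min_le_left _ _)
  · obtain ⟨k₀, hk₀⟩ := Pool.Agent.K7.H67.BG.vec_sup ε hε
    refine ⟨k₀, fun k hk => ?_⟩
    obtain ⟨γ, hγ, p₁, hsup⟩ := hk₀ k hk
    obtain ⟨p₂, heq⟩ := Pool.Agent.K7.H67.CUB.equi_of (min γ 1) (by positivity) (min_le_right _ _)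
    refine ⟨min γ 1 / 2 / 8, by positivity, fun F hd hsq => ?_⟩
    obtain ⟨N₂, h2⟩ := criterion_pow F hd hsq (min γ 1 / 2) (by positivity)
    refine ⟨p₁ + p₂ + N₂, fun p hp hpp S f hS hf => ?_⟩
    have : NeZero p := ⟨hpp.ne_zero⟩
    refine h2 p (by omega) _ (Fintype.piFinset S) (multilinear f) (fun X hX => ?_)
    refine heq p (by omega) hpp (Fin k → ZMod p) (Fintype.piFinset S) (multilinear f) (fun i _ => ZMod.val_lt _) ?_ X hX
    intro j hj1 hjp
    refine (hsup p (by omega) hpp S hS f hf j hj1 hjp).trans ?_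
    apply mul_le_mul_of_nonneg_left _ (Nat.cast_nonneg _)
    apply Real.rpow_le_rpow_of_exponent_le (by exact_mod_cast hpp.one_lt.le)
    exact neg_le_neg (min_le_left _ _)

end Pool.Agent.Results.MP_2d259b_nt.SparseFibres
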